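import Pool.Agent.W2helper44.OT.Stm

/-!
# Project OT: the even Tate groups for `p m'` and `m'`
-/

set_option autoImplicit false

namespace Pool.Agent.W2helper68.OT

open Module Pool.Agent.W2helper44.OT

/-- multiplication by the integer `c` -/
abbrev mu (T : Type) [AddCommGroup T] (c : ℤ) : T →ₗ[ℤ] T := c • (LinearMap.id : T →ₗ[ℤ] T)

lemma cc_quot {L : Type} [AddCommGroup L] (S : Submodule ℤ L) (p k : ℕ) :
    cc p k (L ⧸ S) = Nat.card (L ⧸ (S ⊔ LinearMap.range (mu L ((p : ℤ) ^ k)))) := by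
  unfold cc
  have h : LinearMap.range (((p : ℤ) ^ k) • (LinearMap.id : (L ⧸ S) →ₗ[ℤ] (L ⧸ S))) =
      (LinearMap.range (mu L ((p : ℤ) ^ k))).map S.mkQ := by
    ext y
    constructor
    · rintro ⟨z, rfl⟩
      obtain ⟨x, rfl⟩ := S.mkQ_surjective z
      exact ⟨mu L ((p : ℤ) ^ k) x, ⟨x, rfl⟩, S.mkQ.map_smul ((p : ℤ) ^ k) x⟩
    · rintro ⟨_, ⟨x, rfl⟩, rfl⟩
      exact ⟨S.mkQ x, (S.mkQ.map_smul ((p : ℤ) ^ k) x).symm⟩
  rw [h]
  exact Nat.card_congr (Submodule.quotientQuotientEquivQuotientSup S _).toEquiv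

lemma cc_tate {M : Type} [AddCommGroup M] (h : M →ₗ[ℤ] M) (m s p k : ℕ) (L R : Submodule ℤ M)
    (hL : LinearMap.ker (op h m s) = L) (hR : LinearMap.range (op h m (s + 1)) = R) :
    cc p k (Tate M h m s) =
      Nat.card (L ⧸ (R.submoduleOf L ⊔ LinearMap.range (mu L ((p : ℤ) ^ k)))) := by
  subst hL hR
  exact cc_quot _ p k

lemma card_mu {L : Type} [AddCommGroup L] [Module.Free ℤ L] [Module.Finite ℤ L] (p : ℕ)
    (inj : Function.Injective (mu L (p : ℤ))) :
    Nat.card (L ⧸ LinearMap.range (mu L (p : ℤ))) = p ^ finrank ℤ L := by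
  let e : L ≃ₗ[ℤ] LinearMap.range (mu L (p : ℤ)) := LinearEquiv.ofInjective _ inj
  rw [← Submodule.natAbs_det_equiv _ e]
  have h1 : (LinearMap.range (mu L (p : ℤ))).subtype ∘ₗ
      AddMonoidHom.toIntLinearMap (e : L →+ LinearMap.range (mu L (p : ℤ))) = mu L (p : ℤ) := by
    ext x
    rfl
  rw [h1, LinearMap.det_smul, LinearMap.det_id, mul_one, Int.natAbs_pow, Int.natAbs_natCast]

/-- the index of the image under multiplication by `p` -/
lemma card_map {L : Type} [AddCommGroup L] (S : Submodule ℤ L) (f : L →ₗ[ℤ] L)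
    (inj : Function.Injective f) :
    Nat.card (L ⧸ S.map f) = Nat.card (L ⧸ S) * Nat.card (L ⧸ LinearMap.range f) :=
  AddSubgroup.index_map_of_injective S.toAddSubgroup (f := f.toAddMonoidHom) inj

lemma map_sup_pow {L : Type} [AddCommGroup L] (S : Submodule ℤ L) (p k : ℕ) :
    S.map (mu L (p : ℤ)) ⊔ LinearMap.range (mu L ((p : ℤ) ^ (k + 1))) =
      (S ⊔ LinearMap.range (mu L ((p : ℤ) ^ k))).map (mu L (p : ℤ)) := by
  rw [Submodule.map_sup]
  congr 1
  ext y
  constructor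
  · rintro ⟨x, rfl⟩
    refine ⟨mu L ((p : ℤ) ^ k) x, ⟨x, rfl⟩, ?_⟩
    simp only [mu, LinearMap.smul_apply, LinearMap.id_apply, smul_smul, pow_succ']
  · rintro ⟨_, ⟨x, rfl⟩, rfl⟩
    refine ⟨x, ?_⟩
    simp only [mu, LinearMap.smul_apply, LinearMap.id_apply, smul_smul, pow_succ']

lemma norm_mul {M : Type} [AddCommGroup M] (h : M →ₗ[ℤ] M) (m' : ℕ)
    (hm : ∀ x, (h ^ m') x = x) (q : ℕ) :
    ∑ j ∈ Finset.range (q * m'), (h ^ j : Module.End ℤ M) =
      (q : ℤ) • ∑ j ∈ Finset.range m', (h ^ j : Module.End ℤ M) := by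
  have h1 : (h : Module.End ℤ M) ^ m' = 1 := LinearMap.ext hm
  induction q with
  | zero => simp
  | succ q ih =>
    rw [Nat.succ_mul, Finset.sum_range_add, ih, Nat.cast_succ, add_smul, one_smul]
    congr 1
    refine Finset.sum_congr rfl fun j _ => ?_
    rw [pow_add, mul_comm q m', pow_mul, h1, one_pow, one_mul]

theorem p_EVEN : P_EVEN := by
  intro M _ _ h m' p hp hm' htf hm s hs
  have hs1 : ¬ Even (s + 1) := by
    rw [Nat.not_even_iff_odd]
    exact hs.add_one
  have hL : ∀ m : ℕ, LinearMap.ker (op h m s) = LinearMap.ker (h - 1) := fun m => by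
    simp only [op, if_pos hs]
  have hN : op h (p * m') (s + 1) = (p : ℤ) • op h m' (s + 1) := by
    simp only [op, if_neg hs1]
    exact norm_mul h m' hm p
  set L : Submodule ℤ M := LinearMap.ker (h - 1) with hLdef
  set R' : Submodule ℤ M := LinearMap.range (op h m' (s + 1)) with hR'
  -- the norms are invariant
  have hle : R' ≤ L := by
    rintro _ ⟨x, rfl⟩
    have h1 : (h : Module.End ℤ M) ^ m' = 1 := LinearMap.ext hm
    have h2 : (h - 1 : Module.End ℤ M) * ∑ j ∈ Finset.range m', (h ^ j : Module.End ℤ M) = 0 := by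
      rw [mul_geom_sum, h1, sub_self]
    have h3 := LinearMap.congr_fun h2 x
    rw [hLdef, LinearMap.mem_ker]
    simp only [op, if_neg hs1]
    exact h3
  have hpz : (p : ℤ) ≠ 0 := by exact_mod_cast hp.ne_zero
  have inj : Function.Injective (mu L (p : ℤ)) := by
    rw [← LinearMap.ker_eq_bot, LinearMap.ker_eq_bot']
    intro x hx
    apply Subtype.ext
    refine htf x (p : ℤ) hpz ?_
    have := congrArg Subtype.val hx
    simpa [mu] using this
  have hfree : Module.IsTorsionFree ℤ L := by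
    refine ⟨fun r hr => ?_⟩
    intro x y hxy
    have h0 : r ≠ 0 := hr.ne_zero
    have hxy' : r • x = r • y := hxy
    have h1 : r • ((x : M) - (y : M)) = 0 := by
      rw [smul_sub, sub_eq_zero]
      exact congrArg Subtype.val hxy'
    exact Subtype.ext (sub_eq_zero.mp (htf _ r h0 h1))
  have hmap : (LinearMap.range (op h (p * m') (s + 1))).submoduleOf L =
      (R'.submoduleOf L).map (mu L (p : ℤ)) := by
    ext x
    constructor
    · intro hx
      obtain ⟨y, hy⟩ : (x : M) ∈ LinearMap.range (op h (p * m') (s + 1)) := hx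
      rw [hN] at hy
      have hy1 : op h m' (s + 1) y ∈ R' := ⟨y, rfl⟩
      refine ⟨⟨op h m' (s + 1) y, hle hy1⟩, hy1, ?_⟩
      apply Subtype.ext
      rw [← hy]
      simp [mu]
    · rintro ⟨y, hy, rfl⟩
      obtain ⟨z, hz⟩ : (y : M) ∈ R' := hy
      change ((mu L (p : ℤ) y : L) : M) ∈ LinearMap.range (op h (p * m') (s + 1))
      refine ⟨z, ?_⟩
      rw [hN, LinearMap.smul_apply, hz]
      simp [mu]
  have hmuc : Nat.card (L ⧸ LinearMap.range (mu L (p : ℤ))) = p ^ finrank ℤ L := card_mu p inj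
  constructor
  · intro k
    rw [cc_tate h (p * m') s p (k + 1) L _ (hL _) rfl, cc_tate h m' s p k L R' (hL _) rfl, hmap,
      map_sup_pow, card_map _ _ inj, hmuc, mul_comm]
  · rw [cc_tate h m' s p 1 L R' (hL _) rfl, pow_one, ← hmuc]
    have h1 : Nat.card (L ⧸ (R'.submoduleOf L ⊔ LinearMap.range (mu L (p : ℤ)))) ∣
        Nat.card (L ⧸ LinearMap.range (mu L (p : ℤ))) :=
      AddSubgroup.index_dvd_of_le (H := (LinearMap.range (mu L (p : ℤ))).toAddSubgroup)
        (K := (R'.submoduleOf L ⊔ LinearMap.range (mu L (p : ℤ))).toAddSubgroup)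
        (Submodule.toAddSubgroup_mono le_sup_right)
    refine Nat.le_of_dvd ?_ h1
    rw [hmuc]
    exact pow_pos hp.pos _

end Pool.Agent.W2helper68.OT
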